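import Mathlib

/-!
# Spread functions and their slices
-/

set_option autoImplicit false

open Finset

namespace Pool.Agent.N656.PL

/-- the integer valued function `g` is bounded by `κ R` and takes each value with probability at
most `κ / R` -/
structure Spread {Ω : Type} [Fintype Ω] (g : Ω → ℤ) (κ R : ℝ) : Prop where
  bd : ∀ ω, |(g ω : ℝ)| ≤ κ * R
  fib : ∀ v : ℤ, ((univ.filter fun ω => g ω = v).card : ℝ) * R ≤ κ * Fintype.card Ω

/-- the sum `∑ g (ω s) t ^ s` -/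
def sl {Ω : Type} (b : ℕ) (t : ℤ) (g : Ω → ℤ) (ω : Fin (b + 1) → Ω) : ℤ :=
  ∑ s, g (ω s) * t ^ (s : ℕ)

lemma sl_zero {Ω : Type} (t : ℤ) (g : Ω → ℤ) (ω : Fin 1 → Ω) : sl 0 t g ω = g (ω 0) := by
  simp [sl]

lemma sl_succ {Ω : Type} (b : ℕ) (t : ℤ) (g : Ω → ℤ) (ω : Fin (b + 2) → Ω) :
    sl (b + 1) t g ω = g (ω 0) + t * sl b t g (Fin.tail ω) := by
  unfold sl
  rw [Fin.sum_univ_succ, Finset.mul_sum]
  simp only [Fin.val_zero, pow_zero, mul_one, Fin.val_succ, Fin.tail]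
  congr 1
  refine Finset.sum_congr rfl fun s _ => ?_
  ring

/-- the number of the integers in `[-B, B]` in a residue class -/
lemma card_cong (B : ℝ) (hB : 0 ≤ B) (t v : ℤ) (ht : t ≠ 0) :
    (((Icc (-⌊B⌋) ⌊B⌋).filter fun w : ℤ => t ∣ v - w).card : ℝ) ≤ 2 * B / |(t : ℝ)| + 1 := by
  obtain ⟨r, hr⟩ : ∃ r : ℤ, r = |t| := ⟨_, rfl⟩
  have hr0 : 0 < r := by rw [hr]; exact abs_pos.2 ht
  have hrR : (r : ℝ) = |(t : ℝ)| := by rw [hr]; push_cast; rfl
  have h1 : ((Icc (-⌊B⌋) ⌊B⌋).filter fun w : ℤ => t ∣ v - w) ⊆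
      (Ioc (-⌊B⌋ - 1) ⌊B⌋).filter fun w : ℤ => w ≡ v [ZMOD r] := by
    intro w hw
    rw [mem_filter, mem_Icc] at hw
    rw [mem_filter, mem_Ioc]
    refine ⟨⟨by omega, hw.1.2⟩, ?_⟩
    rw [Int.modEq_iff_dvd, hr, abs_dvd]
    exact hw.2
  have h2 := Int.Ioc_filter_modEq_card (-⌊B⌋ - 1) ⌊B⌋ hr0 v
  have h3 : (((Icc (-⌊B⌋) ⌊B⌋).filter fun w : ℤ => t ∣ v - w).card : ℤ) ≤
      max (⌊((⌊B⌋ - v : ℤ) : ℚ) / r⌋ - ⌊((-⌊B⌋ - 1 - v : ℤ) : ℚ) / r⌋) 0 := by
    have := Finset.card_le_card h1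
    have h4 : (((Icc (-⌊B⌋) ⌊B⌋).filter fun w : ℤ => t ∣ v - w).card : ℤ) ≤
      (((Ioc (-⌊B⌋ - 1) ⌊B⌋).filter fun w : ℤ => w ≡ v [ZMOD r]).card : ℤ) := by exact_mod_cast this
    refine h4.trans (le_of_eq ?_)
    rw [h2]
    push_cast
    rfl
  have hfl : (0 : ℤ) ≤ ⌊B⌋ := Int.floor_nonneg.2 hB
  have hrR0 : (0 : ℝ) < r := by exact_mod_cast hr0
  have h5 : ((⌊((⌊B⌋ - v : ℤ) : ℚ) / r⌋ - ⌊((-⌊B⌋ - 1 - v : ℤ) : ℚ) / r⌋ : ℤ) : ℝ) ≤
      2 * B / r + 1 := by
    have e1 : ⌊((⌊B⌋ - v : ℤ) : ℚ) / r⌋ = (⌊B⌋ - v) / r := by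
      have := Rat.floor_intCast_div_natCast (⌊B⌋ - v) r.toNat
      have hrn : ((r.toNat : ℕ) : ℤ) = r := Int.toNat_of_nonneg hr0.le
      rw [hrn] at this
      rw [← this]
      congr 2
      exact_mod_cast hrn.symm
    have e2 : ⌊((-⌊B⌋ - 1 - v : ℤ) : ℚ) / r⌋ = (-⌊B⌋ - 1 - v) / r := by
      have := Rat.floor_intCast_div_natCast (-⌊B⌋ - 1 - v) r.toNat
      have hrn : ((r.toNat : ℕ) : ℤ) = r := Int.toNat_of_nonneg hr0.le
      rw [hrn] at this
      rw [← this]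
      congr 2
      exact_mod_cast hrn.symm
    rw [e1, e2]
    -- `(⌊B⌋ - v) / r ≤ (⌊B⌋ - v) / r` and `(-⌊B⌋ - 1 - v) / r ≥ (-⌊B⌋ - 1 - v - (r - 1)) / r`
    have h6 : (⌊B⌋ - v) / r * r ≤ ⌊B⌋ - v := Int.ediv_mul_le _ hr0.ne'
    have h7 : -⌊B⌋ - 1 - v < ((-⌊B⌋ - 1 - v) / r + 1) * r := Int.lt_ediv_add_one_mul_self _ hr0
    have h8 : ((⌊B⌋ - v) / r - (-⌊B⌋ - 1 - v) / r) * r ≤ 2 * ⌊B⌋ + r := by nlinarith
    have h9 : (((⌊B⌋ - v) / r - (-⌊B⌋ - 1 - v) / r : ℤ) : ℝ) * r ≤ 2 * (⌊B⌋ : ℝ) + r := by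
      exact_mod_cast h8
    have h10 : (⌊B⌋ : ℝ) ≤ B := Int.floor_le B
    have h11 : 2 * B / r + 1 = (2 * B + r) / r := by field_simp
    rw [h11, le_div_iff₀ hrR0]
    linarith
  have h12 : (((Icc (-⌊B⌋) ⌊B⌋).filter fun w : ℤ => t ∣ v - w).card : ℝ) ≤
      ((max (⌊((⌊B⌋ - v : ℤ) : ℚ) / r⌋ - ⌊((-⌊B⌋ - 1 - v : ℤ) : ℚ) / r⌋) 0 : ℤ) : ℝ) := by
    exact_mod_cast h3
  refine h12.trans ?_
  rw [← hrR]
  push_cast [Int.cast_max]
  refine max_le ?_ (by positivity)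
  exact_mod_cast h5

/-- the number of `ω` with `g ω` in a residue class -/
lemma card_modEq {Ω : Type} [Fintype Ω] {g : Ω → ℤ} {κ R : ℝ} (hR : 1 ≤ R) (hκ : 0 ≤ κ)
    (h : Spread g κ R) (t v : ℤ) (ht : t ≠ 0) :
    ((univ.filter fun ω => t ∣ v - g ω).card : ℝ) * R ≤
      (2 * (κ * R) / |(t : ℝ)| + 1) * (κ * Fintype.card Ω) := by
  classical
  have hB : 0 ≤ κ * R := by positivity
  have h1 : (univ.filter fun ω => t ∣ v - g ω) ⊆
      ((Icc (-⌊κ * R⌋) ⌊κ * R⌋).filter fun w : ℤ => t ∣ v - w).biUnion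
        fun w => univ.filter fun ω => g ω = w := by
    intro ω hω
    rw [mem_filter] at hω
    rw [mem_biUnion]
    have hb := abs_le.1 (h.bd ω)
    refine ⟨g ω, mem_filter.2 ⟨mem_Icc.2 ⟨?_, ?_⟩, hω.2⟩, mem_filter.2 ⟨mem_univ _, rfl⟩⟩
    · have h2 : -(g ω) ≤ ⌊κ * R⌋ := Int.le_floor.2 (by push_cast; linarith [hb.1])
      linarith
    · exact Int.le_floor.2 hb.2
  have h2 : ((univ.filter fun ω => t ∣ v - g ω).card : ℝ) ≤
      ∑ w ∈ (Icc (-⌊κ * R⌋) ⌊κ * R⌋).filter fun w : ℤ => t ∣ v - w,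
        ((univ.filter fun ω => g ω = w).card : ℝ) := by
    have := (Finset.card_le_card h1).trans Finset.card_biUnion_le
    exact_mod_cast this
  calc ((univ.filter fun ω => t ∣ v - g ω).card : ℝ) * R
      ≤ (∑ w ∈ (Icc (-⌊κ * R⌋) ⌊κ * R⌋).filter fun w : ℤ => t ∣ v - w,
        ((univ.filter fun ω => g ω = w).card : ℝ)) * R := by gcongr
    _ = ∑ w ∈ (Icc (-⌊κ * R⌋) ⌊κ * R⌋).filter fun w : ℤ => t ∣ v - w,
        ((univ.filter fun ω => g ω = w).card : ℝ) * R := by rw [Finset.sum_mul]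
    _ ≤ ∑ w ∈ (Icc (-⌊κ * R⌋) ⌊κ * R⌋).filter fun w : ℤ => t ∣ v - w,
        κ * Fintype.card Ω := Finset.sum_le_sum fun w _ => h.fib w
    _ = (((Icc (-⌊κ * R⌋) ⌊κ * R⌋).filter fun w : ℤ => t ∣ v - w).card : ℝ) *
        (κ * Fintype.card Ω) := by rw [Finset.sum_const, nsmul_eq_mul]
    _ ≤ _ := by
        gcongr
        exact card_cong _ hB t v ht

/-- the constant for the slices -/
noncomputable def Kap (κ lam : ℝ) (b : ℕ) : ℝ := (b + 1) * κ * (κ * (2 * κ + lam)) ^ b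

lemma Kap_succ_ge {κ lam : ℝ} (hκ : 1 ≤ κ) (hl : 1 ≤ lam) (b : ℕ) :
    κ * (2 * κ + lam) * Kap κ lam b ≤ Kap κ lam (b + 1) := by
  unfold Kap
  have h0 : 0 ≤ κ * (κ * (2 * κ + lam)) ^ (b + 1) := by positivity
  have h1 : κ * (2 * κ + lam) * ((b + 1) * κ * (κ * (2 * κ + lam)) ^ b) =
      (b + 1) * (κ * (κ * (2 * κ + lam)) ^ (b + 1)) := by ring
  rw [h1]
  push_cast
  nlinarith

lemma Kap_ge {κ lam : ℝ} (hκ : 1 ≤ κ) (hl : 1 ≤ lam) (b : ℕ) : (b + 1) * κ ≤ Kap κ lam b := by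
  unfold Kap
  have h1 : 1 ≤ (κ * (2 * κ + lam)) ^ b := one_le_pow₀ (by nlinarith)
  have h2 : 0 ≤ (b + 1) * κ := by positivity
  nlinarith

/-- the fibres of the slice -/
lemma fib_sl {Ω : Type} [Fintype Ω] {g : Ω → ℤ} {κ R lam : ℝ} (hR : 1 ≤ R) (hκ : 1 ≤ κ)
    (hl : 1 ≤ lam) (h : Spread g κ R) (t : ℤ) (ht : |(t : ℝ)| ≤ lam * R) (b : ℕ) (v : ℤ) :
    ((univ.filter fun ω : Fin (b + 1) → Ω => sl b t g ω = v).card : ℝ) *
      (R * (max 1 |(t : ℝ)|) ^ b) ≤ Kap κ lam b * (Fintype.card Ω : ℝ) ^ (b + 1) := by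
  classical
  induction b generalizing v with
  | zero =>
    have h1 : (univ.filter fun ω : Fin 1 → Ω => sl 0 t g ω = v).card ≤
        (univ.filter fun ω => g ω = v).card := by
      refine Finset.card_le_card_of_injOn (fun ω => ω 0) ?_ ?_
      · intro ω hω
        rw [coe_filter] at hω ⊢
        exact ⟨mem_univ _, by rw [← sl_zero t g ω]; exact hω.2⟩
      · intro ω _ ω' _ h2
        funext i
        fin_cases i
        exact h2
    have h2 := h.fib v
    have h3 := Kap_ge hκ hl 0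
    have h4 : ((univ.filter fun ω : Fin 1 → Ω => sl 0 t g ω = v).card : ℝ) ≤
        ((univ.filter fun ω => g ω = v).card : ℝ) := by exact_mod_cast h1
    simp only [pow_zero, mul_one, zero_add, pow_one]
    calc ((univ.filter fun ω : Fin 1 → Ω => sl 0 t g ω = v).card : ℝ) * R
        ≤ ((univ.filter fun ω => g ω = v).card : ℝ) * R := by gcongr
      _ ≤ κ * Fintype.card Ω := h2
      _ ≤ Kap κ lam 0 * Fintype.card Ω := by
          gcongr
          simpa using h3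
  | succ b ih =>
    obtain ⟨N, hN⟩ : ∃ N : ℝ, N = Fintype.card Ω := ⟨_, rfl⟩
    have hN0 : 0 ≤ N := by rw [hN]; positivity
    have hKs := Kap_succ_ge hκ hl b
    have hK0 : 0 ≤ Kap κ lam b := le_trans (by positivity) (Kap_ge hκ hl b)
    by_cases ht0 : t = 0
    · subst ht0
      have h1 : (univ.filter fun ω : Fin (b + 1 + 1) → Ω => sl (b + 1) 0 g ω = v).card ≤
          ((univ.filter fun ω => g ω = v) ×ˢ (univ : Finset (Fin (b + 1) → Ω))).card := by
        refine Finset.card_le_card_of_injOn (fun ω => (ω 0, Fin.tail ω)) ?_ ?_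
        · intro ω hω
          rw [coe_filter] at hω
          rw [coe_product]
          refine ⟨?_, by simp⟩
          rw [coe_filter]
          refine ⟨mem_univ _, ?_⟩
          have h2 := hω.2
          rw [sl_succ, zero_mul, add_zero] at h2
          exact h2
        · intro ω _ ω' _ h2
          rw [Prod.mk.injEq] at h2
          rw [← Fin.cons_self_tail ω, ← Fin.cons_self_tail ω', h2.1, h2.2]
      have h2 : ((univ.filter fun ω : Fin (b + 1 + 1) → Ω => sl (b + 1) 0 g ω = v).card : ℝ) ≤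
          ((univ.filter fun ω => g ω = v).card : ℝ) * N ^ (b + 1) := by
        rw [card_product, card_univ, Fintype.card_fun, Fintype.card_fin] at h1
        rw [hN]
        exact_mod_cast h1
      have h3 := h.fib v
      have h4 : max 1 |((0 : ℤ) : ℝ)| = 1 := by simp
      rw [h4, one_pow, mul_one, ← hN]
      have h5 := Kap_ge hκ hl (b + 1)
      have h6 : κ ≤ Kap κ lam (b + 1) := by
        refine le_trans ?_ h5
        push_cast
        have : (0 : ℝ) ≤ b := by positivity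
        nlinarith
      calc ((univ.filter fun ω : Fin (b + 1 + 1) → Ω => sl (b + 1) 0 g ω = v).card : ℝ) * R
          ≤ ((univ.filter fun ω => g ω = v).card : ℝ) * N ^ (b + 1) * R := by gcongr
        _ = ((univ.filter fun ω => g ω = v).card : ℝ) * R * N ^ (b + 1) := by ring
        _ ≤ κ * N * N ^ (b + 1) := by
            rw [← hN] at h3
            exact mul_le_mul_of_nonneg_right h3 (by positivity)
        _ ≤ Kap κ lam (b + 1) * N * N ^ (b + 1) := by gcongr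
        _ = _ := by ring
    · -- the digit in base `t`
      have hτ0 : (0 : ℝ) < |(t : ℝ)| := abs_pos.2 (by exact_mod_cast ht0)
      have hτ1 : (1 : ℝ) ≤ |(t : ℝ)| := by
        have : (1 : ℤ) ≤ |t| := Int.one_le_abs ht0
        have h2 : ((1 : ℤ) : ℝ) ≤ ((|t| : ℤ) : ℝ) := by exact_mod_cast this
        push_cast at h2
        exact h2
      have hmax : max 1 |(t : ℝ)| = |(t : ℝ)| := max_eq_right hτ1
      rw [hmax] at ih ⊢
      obtain ⟨X, hX⟩ : ∃ X : ℝ, X = |(t : ℝ)| := ⟨_, rfl⟩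
      rw [← hX] at ih ⊢ hτ0 hτ1 ht
      have h1 : (univ.filter fun ω : Fin (b + 1 + 1) → Ω => sl (b + 1) t g ω = v) ⊆
          (univ.filter fun ω => t ∣ v - g ω).biUnion fun ω₀ =>
            (univ.filter fun ω : Fin (b + 1) → Ω => sl b t g ω = (v - g ω₀) / t).image
              fun ω => Fin.cons ω₀ ω := by
        intro ω hω
        rw [mem_filter, sl_succ] at hω
        rw [mem_biUnion]
        have h2 : v - g (ω 0) = t * sl b t g (Fin.tail ω) := by linarith [hω.2]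
        refine ⟨ω 0, mem_filter.2 ⟨mem_univ _, ⟨_, h2⟩⟩, mem_image.2 ⟨Fin.tail ω, ?_, ?_⟩⟩
        · rw [mem_filter]
          refine ⟨mem_univ _, ?_⟩
          rw [h2, Int.mul_ediv_cancel_left _ ht0]
        · exact Fin.cons_self_tail ω
      have h2 : ((univ.filter fun ω : Fin (b + 1 + 1) → Ω => sl (b + 1) t g ω = v).card : ℝ) ≤
          ∑ ω₀ ∈ univ.filter fun ω => t ∣ v - g ω,
            ((univ.filter fun ω : Fin (b + 1) → Ω => sl b t g ω = (v - g ω₀) / t).card : ℝ) := by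
        have := (Finset.card_le_card h1).trans Finset.card_biUnion_le
        have h3 := this.trans (Finset.sum_le_sum fun ω₀ _ => Finset.card_image_le)
        exact_mod_cast h3
      have hY : 0 < R * X ^ b := by positivity
      have h3 : ((univ.filter fun ω : Fin (b + 1 + 1) → Ω => sl (b + 1) t g ω = v).card : ℝ) *
          (R * X ^ b) ≤ ((univ.filter fun ω => t ∣ v - g ω).card : ℝ) *
            (Kap κ lam b * N ^ (b + 1)) := by
        calc ((univ.filter fun ω : Fin (b + 1 + 1) → Ω => sl (b + 1) t g ω = v).card : ℝ) *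
            (R * X ^ b) ≤ (∑ ω₀ ∈ univ.filter fun ω => t ∣ v - g ω,
            ((univ.filter fun ω : Fin (b + 1) → Ω => sl b t g ω = (v - g ω₀) / t).card : ℝ)) *
              (R * X ^ b) := by gcongr
          _ = ∑ ω₀ ∈ univ.filter fun ω => t ∣ v - g ω,
            ((univ.filter fun ω : Fin (b + 1) → Ω => sl b t g ω = (v - g ω₀) / t).card : ℝ) *
              (R * X ^ b) := by rw [Finset.sum_mul]
          _ ≤ ∑ ω₀ ∈ univ.filter fun ω => t ∣ v - g ω, Kap κ lam b * N ^ (b + 1) := by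
              refine Finset.sum_le_sum fun ω₀ _ => ?_
              rw [hN]
              exact ih _
          _ = _ := by rw [Finset.sum_const, nsmul_eq_mul]
      have h4 := card_modEq hR (by linarith) h t v ht0
      rw [← hX, ← hN] at h4
      -- multiply with `R X`
      have h5 : (2 * (κ * R) / X + 1) * X ≤ (2 * κ + lam) * R := by
        rw [add_mul, div_mul_cancel₀ _ hτ0.ne']
        linarith
      have hK' : 0 ≤ Kap κ lam b * N ^ (b + 1) := by positivity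
      have hR0 : 0 < R := by linarith
      have h6 : ((univ.filter fun ω : Fin (b + 1 + 1) → Ω => sl (b + 1) t g ω = v).card : ℝ) *
          (R * X ^ (b + 1)) * R ≤ Kap κ lam (b + 1) * N ^ (b + 1 + 1) * R := by
        calc ((univ.filter fun ω : Fin (b + 1 + 1) → Ω => sl (b + 1) t g ω = v).card : ℝ) *
            (R * X ^ (b + 1)) * R
            = (((univ.filter fun ω : Fin (b + 1 + 1) → Ω => sl (b + 1) t g ω = v).card : ℝ) *
            (R * X ^ b)) * (R * X) := by ring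
          _ ≤ (((univ.filter fun ω => t ∣ v - g ω).card : ℝ) *
            (Kap κ lam b * N ^ (b + 1))) * (R * X) := by gcongr
          _ = (((univ.filter fun ω => t ∣ v - g ω).card : ℝ) * R) * X *
            (Kap κ lam b * N ^ (b + 1)) := by ring
          _ ≤ ((2 * (κ * R) / X + 1) * (κ * N)) * X * (Kap κ lam b * N ^ (b + 1)) := by gcongr
          _ = ((2 * (κ * R) / X + 1) * X) * ((κ * N) * (Kap κ lam b * N ^ (b + 1))) := by ring
          _ ≤ ((2 * κ + lam) * R) * ((κ * N) * (Kap κ lam b * N ^ (b + 1))) := by gcongr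
          _ = (κ * (2 * κ + lam) * Kap κ lam b) * (N ^ (b + 1 + 1) * R) := by ring
          _ ≤ Kap κ lam (b + 1) * (N ^ (b + 1 + 1) * R) := by gcongr
          _ = _ := by ring
      rw [← hN]
      exact le_of_mul_le_mul_right h6 hR0

lemma bd_sl {Ω : Type} [Fintype Ω] {g : Ω → ℤ} {κ R : ℝ} (hR : 1 ≤ R) (hκ : 1 ≤ κ)
    (h : Spread g κ R) (t : ℤ) (b : ℕ) (ω : Fin (b + 1) → Ω) :
    |(sl b t g ω : ℝ)| ≤ (b + 1) * κ * (R * (max 1 |(t : ℝ)|) ^ b) := by
  unfold sl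
  push_cast
  have hm : (1 : ℝ) ≤ max 1 |(t : ℝ)| := le_max_left _ _
  have hR0 : 0 ≤ R := by linarith
  calc |∑ s, (g (ω s) : ℝ) * (t : ℝ) ^ (s : ℕ)| ≤ ∑ s, |(g (ω s) : ℝ) * (t : ℝ) ^ (s : ℕ)| :=
        Finset.abs_sum_le_sum_abs _ _
    _ ≤ ∑ _s : Fin (b + 1), κ * R * (max 1 |(t : ℝ)|) ^ b := by
        refine Finset.sum_le_sum fun s _ => ?_
        rw [abs_mul, abs_pow]
        have h1 : |(t : ℝ)| ^ (s : ℕ) ≤ (max 1 |(t : ℝ)|) ^ b :=
          (pow_le_pow_left₀ (abs_nonneg _) (le_max_right _ _) _).trans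
            (pow_le_pow_right₀ hm (by omega))
        have h2 := h.bd (ω s)
        gcongr
    _ = _ := by
        rw [Finset.sum_const, card_univ, Fintype.card_fin, nsmul_eq_mul]
        push_cast
        ring

/-- a slice of a spread function is spread -/
theorem spread_sl {Ω : Type} [Fintype Ω] {g : Ω → ℤ} {κ R lam : ℝ} (hR : 1 ≤ R) (hκ : 1 ≤ κ)
    (hl : 1 ≤ lam) (h : Spread g κ R) (t : ℤ) (ht : |(t : ℝ)| ≤ lam * R) (b : ℕ) :
    Spread (sl b t g) (Kap κ lam b) (R * (max 1 |(t : ℝ)|) ^ b) where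
  bd ω := by
    refine (bd_sl hR hκ h t b ω).trans ?_
    have h1 := Kap_ge hκ hl b
    have hm : (1 : ℝ) ≤ max 1 |(t : ℝ)| := le_max_left _ _
    have hR0 : 0 ≤ R := by linarith
    gcongr
  fib v := by
    rw [Fintype.card_fun, Fintype.card_fin]
    push_cast
    exact fib_sl hR hκ hl h t ht b v

end Pool.Agent.N656.PL
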