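import Pool.Agent.N656.PL.Upper2

/-!
# The lower bound for the systems with a common integer zero
-/

set_option autoImplicit false

open Finset

namespace Pool.Agent.N656.PL

/-- the boxes of coefficients -/
abbrev Bx (H : ℕ) : Type := ↥(Icc (-(H : ℤ)) H)

lemma card_Bx (H : ℕ) : Fintype.card (Bx H) = 2 * H + 1 := by
  rw [Fintype.card_coe, Int.card_Icc]
  omega

/-- the coefficient -/
def gv (H : ℕ) : Bx H → ℤ := fun w => w.1

lemma spread_gv (H : ℕ) (hH : 1 ≤ H) : Spread (gv H) 3 H where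
  bd ω := by
    have h1 := mem_Icc.1 ω.2
    have h2 : |(gv H ω : ℝ)| ≤ H := by
      rw [abs_le]
      exact ⟨by exact_mod_cast h1.1, by exact_mod_cast h1.2⟩
    have : (0 : ℝ) ≤ H := by positivity
    linarith
  fib v := by
    classical
    have h1 : (univ.filter fun ω : Bx H => gv H ω = v).card ≤ 1 := by
      rw [Finset.card_le_one]
      intro x hx y hy
      rw [mem_filter] at hx hy
      exact Subtype.ext (hx.2.trans hy.2.symm)
    have h2 : ((univ.filter fun ω : Bx H => gv H ω = v).card : ℝ) ≤ 1 := by exact_mod_cast h1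
    rw [card_Bx]
    push_cast
    have h3 : (0 : ℝ) ≤ H := by positivity
    nlinarith

/-- the zero exponent -/
def e0 {n : ℕ} (a : Fin n → ℕ) : E a := fun _ => 0

lemma ev_zero {n : ℕ} (a : Fin n → ℕ) {Ω : Type} (g : Ω → ℤ) (u : E a → Ω)
    (h : g (u (e0 a)) = 0) : ev a g u (fun _ => 0) = 0 := by
  unfold ev
  refine Finset.sum_eq_zero fun e _ => ?_
  by_cases he : e = e0 a
  · rw [he, h, zero_mul]
  · obtain ⟨i, hi⟩ : ∃ i, e i ≠ 0 := by
      by_contra hc
      push Not at hc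
      exact he (funext hc)
    have hi' : (e i : ℕ) ≠ 0 := fun h => hi (Fin.ext (by rw [h]; rfl))
    rw [Finset.prod_eq_zero (mem_univ i) (zero_pow hi'), mul_zero]

/-- the systems whose constant coefficients vanish -/
lemma lower_trivial {n : ℕ} (a : Fin n → ℕ) (c H : ℕ) :
    (H : ℝ) ^ ((Fintype.card (E a) - 1) * c) ≤ (Bad a c (gv H)).card := by
  classical
  have h1 : (Fintype.piFinset fun _ : Fin c => Fintype.piFinset fun e : E a =>
      if e = e0 a then univ.filter fun ω : Bx H => gv H ω = 0 else univ) ⊆ Bad a c (gv H) := by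
    intro u hu
    rw [mem_Bad]
    refine ⟨fun _ => 0, fun j => ev_zero a _ _ ?_⟩
    rw [Fintype.mem_piFinset] at hu
    have h2 := Fintype.mem_piFinset.1 (hu j) (e0 a)
    rw [if_pos rfl, mem_filter] at h2
    exact h2.2
  have h2 : (univ.filter fun ω : Bx H => gv H ω = 0).card = 1 := by
    rw [Finset.card_eq_one]
    refine ⟨⟨0, mem_Icc.2 ⟨by omega, by omega⟩⟩, ?_⟩
    ext w
    rw [mem_filter, mem_singleton]
    constructor
    · intro hw
      exact Subtype.ext hw.2
    · intro hw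
      rw [hw]
      exact ⟨mem_univ _, rfl⟩
  have h3 := Finset.card_le_card h1
  rw [Fintype.card_piFinset, Finset.prod_const, Fintype.card_piFinset,
    ← Finset.mul_prod_erase univ _ (mem_univ (e0 a)), if_pos rfl, h2, one_mul] at h3
  have h4 : ∏ e ∈ univ.erase (e0 a), (if e = e0 a then univ.filter fun ω : Bx H => gv H ω = 0 else
      (univ : Finset (Bx H))).card = (2 * H + 1) ^ (Fintype.card (E a) - 1) := by
    rw [Finset.prod_congr rfl (g := fun _ => 2 * H + 1)]
    · rw [Finset.prod_const, Finset.card_erase_of_mem (mem_univ _), card_univ]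
    · intro e he
      rw [if_neg (Finset.ne_of_mem_erase he), card_univ, card_Bx]
  rw [h4, card_univ, Fintype.card_fin, ← pow_mul] at h3
  have h5 : H ^ ((Fintype.card (E a) - 1) * c) ≤ (Bad a c (gv H)).card :=
    (Nat.pow_le_pow_left (by omega) _).trans h3
  exact_mod_cast h5

/-- the value at a point -/
def evz {n : ℕ} (a : Fin n → ℕ) (u : E a → ℤ) (x : Fin n → ℤ) : ℤ :=
  ∑ e : E a, u e * ∏ i, x i ^ (e i : ℕ)

/-- the coefficient vectors in the box which vanish at a point -/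
noncomputable def At {n : ℕ} (a : Fin n → ℕ) (H : ℕ) (x : Fin n → ℤ) : Finset (E a → Bx H) :=
  univ.filter fun u => ev a (gv H) u x = 0

/-- the weight of a point -/
noncomputable def wt {n : ℕ} (x : Fin n → ℤ) : ℤ := ∏ i, max 1 (x i)

/-- the points -/
noncomputable def pts {n : ℕ} (a : Fin n → ℕ) (L : ℕ) : Finset (Fin n → ℤ) :=
  Fintype.piFinset fun i => if a i = 1 then Icc (1 : ℤ) L else {0}

lemma mono_le {n : ℕ} (a : Fin n → ℕ) (L : ℕ) (x : Fin n → ℤ) (hx : x ∈ pts a L) (e : E a) :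
    0 ≤ ∏ i, x i ^ (e i : ℕ) ∧ ∏ i, x i ^ (e i : ℕ) ≤ wt x := by
  have h0 : ∀ i, 0 ≤ x i ∧ x i ^ (e i : ℕ) ≤ max 1 (x i) := by
    intro i
    have h1 := Fintype.mem_piFinset.1 hx i
    have h2 := (e i).isLt
    split_ifs at h1 with h3
    · rw [mem_Icc] at h1
      refine ⟨by omega, ?_⟩
      have h4 : (e i : ℕ) = 0 ∨ (e i : ℕ) = 1 := by omega
      rcases h4 with h4 | h4
      · rw [h4, pow_zero]
        exact le_max_left _ _
      · rw [h4, pow_one]
        exact le_max_right _ _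
    · rw [mem_singleton] at h1
      rw [h1]
      refine ⟨le_rfl, ?_⟩
      by_cases h4 : (e i : ℕ) = 0
      · rw [h4, pow_zero]
        exact le_max_left _ _
      · rw [zero_pow h4]
        exact le_max_right _ _
  refine ⟨Finset.prod_nonneg fun i _ => pow_nonneg (h0 i).1 _, ?_⟩
  exact Finset.prod_le_prod (fun i _ => pow_nonneg (h0 i).1 _) fun i _ => (h0 i).2

lemma wt_pos {n : ℕ} (x : Fin n → ℤ) : 1 ≤ wt x := by
  unfold wt
  have : ∀ i ∈ (univ : Finset (Fin n)), (1 : ℤ) ≤ max 1 (x i) := fun i _ => le_max_left _ _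
  calc (1 : ℤ) = ∏ _i : Fin n, 1 := by simp
    _ ≤ _ := Finset.prod_le_prod (fun _ _ => by norm_num) this

/-- many coefficient vectors vanish at a point -/
lemma At_ge {n : ℕ} (a : Fin n → ℕ) (H L : ℕ) (hH : 1 ≤ H) (x : Fin n → ℤ) (hx : x ∈ pts a L) :
    (H : ℝ) ^ (Fintype.card (E a) - 1) / (2 * Fintype.card (E a)) * (1 / (wt x : ℝ)) ≤
      (At a H x).card := by
  classical
  obtain ⟨M, hM⟩ : ∃ M : ℕ, M = Fintype.card (E a) := ⟨_, rfl⟩
  have hM1 : 1 ≤ M := by rw [hM]; exact Fintype.card_pos_iff.2 ⟨top a⟩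
  have hw := wt_pos x
  -- the pigeonhole principle
  obtain ⟨S, hS⟩ : ∃ S : Finset (E a → ℤ), S = Fintype.piFinset fun _ => Icc (0 : ℤ) H := ⟨_, rfl⟩
  have hScard : S.card = (H + 1) ^ M := by
    rw [hS, Fintype.card_piFinset, Finset.prod_const, card_univ, ← hM, Int.card_Icc]
    congr 1
  obtain ⟨B, hB⟩ : ∃ B : ℕ, (B : ℤ) = H * M * wt x := ⟨((H : ℤ) * M * wt x).toNat,
    Int.toNat_of_nonneg (by positivity)⟩
  have hmap : ∀ u ∈ S, evz a u x ∈ Icc (0 : ℤ) B := by
    intro u hu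
    rw [hS, Fintype.mem_piFinset] at hu
    rw [mem_Icc, hB]
    unfold evz
    constructor
    · refine Finset.sum_nonneg fun e _ => mul_nonneg (mem_Icc.1 (hu e)).1 (mono_le a L x hx e).1
    · calc ∑ e, u e * ∏ i, x i ^ (e i : ℕ) ≤ ∑ _e : E a, (H : ℤ) * wt x := by
            refine Finset.sum_le_sum fun e _ => ?_
            have h1 := mem_Icc.1 (hu e)
            have h2 := mono_le a L x hx e
            exact mul_le_mul h1.2 h2.2 h2.1 (by positivity)
        _ = H * M * wt x := by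
            rw [Finset.sum_const, card_univ, ← hM, nsmul_eq_mul]
            ring
  have hpig : ∃ v ∈ Icc (0 : ℤ) B, S.card ≤ (S.filter fun u => evz a u x = v).card * (B + 1) := by
    by_contra hcon
    push Not at hcon
    have h1 := Finset.card_eq_sum_card_fiberwise hmap
    have h2 : (∑ v ∈ Icc (0 : ℤ) B, (S.filter fun u => evz a u x = v).card) * (B + 1) <
        S.card * (B + 1) := by
      rw [Finset.sum_mul]
      calc ∑ v ∈ Icc (0 : ℤ) B, (S.filter fun u => evz a u x = v).card * (B + 1)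
          < ∑ v ∈ Icc (0 : ℤ) B, S.card := by
            refine Finset.sum_lt_sum_of_nonempty ⟨0, by rw [mem_Icc]; omega⟩ fun v hv => hcon v hv
        _ = S.card * (B + 1) := by
            rw [Finset.sum_const, Int.card_Icc, smul_eq_mul, mul_comm]
            congr 1
    rw [← h1] at h2
    exact lt_irrefl _ h2
  obtain ⟨v, -, hv⟩ := hpig
  have hne : (S.filter fun u => evz a u x = v).Nonempty := by
    rw [← Finset.card_pos]
    by_contra h0
    have h1 : (S.filter fun u => evz a u x = v).card = 0 := by omega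
    rw [h1, hScard, zero_mul] at hv
    have : 0 < (H + 1) ^ M := by positivity
    omega
  obtain ⟨u₀, hu₀⟩ := hne
  rw [mem_filter] at hu₀
  have hbox : ∀ u ∈ S, ∀ e, u e - u₀ e ∈ Icc (-(H : ℤ)) H := by
    intro u hu e
    have h1 := hu₀.1
    rw [hS, Fintype.mem_piFinset] at hu h1
    have h2 := mem_Icc.1 (hu e)
    have h3 := mem_Icc.1 (h1 e)
    rw [mem_Icc]
    constructor <;> linarith
  have hinj : (S.filter fun u => evz a u x = v).card ≤ (At a H x).card := by
    refine Finset.card_le_card_of_injOn (fun u e => if h : u e - u₀ e ∈ Icc (-(H : ℤ)) H then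
      (⟨u e - u₀ e, h⟩ : Bx H) else ⟨0, mem_Icc.2 ⟨by omega, by omega⟩⟩) ?_ ?_
    · intro u hu
      rw [coe_filter] at hu
      unfold At
      rw [coe_filter]
      refine ⟨mem_univ _, ?_⟩
      unfold ev
      have h1 : ∀ e : E a, gv H (if h : u e - u₀ e ∈ Icc (-(H : ℤ)) H then
          (⟨u e - u₀ e, h⟩ : Bx H) else ⟨0, mem_Icc.2 ⟨by omega, by omega⟩⟩) = u e - u₀ e := by
        intro e
        rw [dif_pos (hbox u hu.1 e)]
        rfl
      simp only [h1]
      have h2 : ∑ e : E a, (u e - u₀ e) * ∏ i, x i ^ (e i : ℕ) = evz a u x - evz a u₀ x := by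
        unfold evz
        rw [← Finset.sum_sub_distrib]
        refine Finset.sum_congr rfl fun e _ => ?_
        ring
      rw [h2, hu.2, hu₀.2, sub_self]
    · intro u hu u' hu' h
      rw [coe_filter] at hu hu'
      funext e
      have h1 := congrFun h e
      simp only [] at h1
      rw [dif_pos (hbox u hu.1 e), dif_pos (hbox u' hu'.1 e)] at h1
      have h2 := congrArg Subtype.val h1
      simp only [] at h2
      linarith
  rw [hScard] at hv
  have h1 : (H + 1) ^ M ≤ (At a H x).card * (B + 1) := hv.trans (Nat.mul_le_mul_right _ hinj)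
  have h2 : ((H : ℝ) + 1) ^ M ≤ ((At a H x).card : ℝ) * (B + 1) := by exact_mod_cast h1
  have hBR : (B : ℝ) = H * M * (wt x : ℝ) := by exact_mod_cast hB
  have hwR : (1 : ℝ) ≤ wt x := by exact_mod_cast hw
  have hHR : (1 : ℝ) ≤ H := by exact_mod_cast hH
  have hMR : (1 : ℝ) ≤ M := by exact_mod_cast hM1
  rw [← hM]
  have h3 : (H : ℝ) ^ (M - 1) / (2 * M) * (1 / (wt x : ℝ)) =
      (H : ℝ) ^ M / (2 * (H * M * (wt x : ℝ))) := by
    obtain ⟨m, rfl⟩ : ∃ m, M = m + 1 := ⟨M - 1, by omega⟩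
    rw [Nat.add_sub_cancel, pow_succ]
    have : (wt x : ℝ) ≠ 0 := by linarith
    field_simp
  rw [h3, ← hBR, div_le_iff₀ (by rw [hBR]; positivity)]
  have hB1 : (1 : ℝ) ≤ B := by
    rw [hBR]
    have h4 : (1 : ℝ) ≤ H * M := by nlinarith
    nlinarith
  calc (H : ℝ) ^ M ≤ ((H : ℝ) + 1) ^ M := by gcongr; linarith
    _ ≤ ((At a H x).card : ℝ) * (B + 1) := h2
    _ ≤ ((At a H x).card : ℝ) * (2 * B) := by gcongr; linarith

/-- few coefficient vectors vanish at two points -/
lemma At_inter {n : ℕ} (a : Fin n → ℕ) (H L : ℕ) (x y : Fin n → ℤ) (hx : x ∈ pts a L)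
    (hy : y ∈ pts a L) (hxy : x ≠ y) :
    (At a H x ∩ At a H y).card ≤ (2 * H + 1) ^ (Fintype.card (E a) - 2) := by
  classical
  obtain ⟨i, hi⟩ : ∃ i, x i ≠ y i := by
    by_contra hc
    push Not at hc
    exact hxy (funext hc)
  have hai : a i = 1 := by
    by_contra h
    have h1 := Fintype.mem_piFinset.1 hx i
    have h2 := Fintype.mem_piFinset.1 hy i
    rw [if_neg h, mem_singleton] at h1 h2
    exact hi (h1.trans h2.symm)
  -- the exponent of `x i`
  obtain ⟨e1, he1⟩ : ∃ e1 : E a, ∀ k, (e1 k : ℕ) = if k = i then 1 else 0 := by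
    refine ⟨fun k => ⟨if k = i then 1 else 0, ?_⟩, fun k => rfl⟩
    split_ifs with h
    · rw [h, hai]
      norm_num
    · omega
  have hne : e1 ≠ e0 a := by
    intro h
    have h1 := he1 i
    rw [h, if_pos rfl] at h1
    simp [e0] at h1
  have hm0 : ∀ z : Fin n → ℤ, ∏ k, z k ^ (e0 a k : ℕ) = 1 := by
    intro z
    refine Finset.prod_eq_one fun k _ => ?_
    have : (e0 a k : ℕ) = 0 := rfl
    rw [this, pow_zero]
  have hm1 : ∀ z : Fin n → ℤ, ∏ k, z k ^ (e1 k : ℕ) = z i := by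
    intro z
    rw [Finset.prod_eq_single i]
    · rw [he1, if_pos rfl, pow_one]
    · intro k _ hk
      rw [he1, if_neg hk, pow_zero]
    · intro h
      exact absurd (mem_univ _) h
  have h1 : (At a H x ∩ At a H y).card ≤
      (univ : Finset (↥((univ.erase (e0 a)).erase e1) → Bx H)).card := by
    refine Finset.card_le_card_of_injOn (fun u e => u e.1) (fun _ _ => mem_univ _) ?_
    intro u hu v hv huv
    rw [mem_coe, mem_inter] at hu hv
    unfold At at hu hv
    simp only [mem_filter] at hu hv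
    have h2 : ∀ e, e ≠ e0 a → e ≠ e1 → u e = v e := by
      intro e h0 h1
      exact congrFun huv ⟨e, mem_erase.2 ⟨h1, mem_erase.2 ⟨h0, mem_univ _⟩⟩⟩
    have h3 : ∀ z : Fin n → ℤ, ev a (gv H) u z - ev a (gv H) v z =
        (gv H (u (e0 a)) - gv H (v (e0 a))) + (gv H (u e1) - gv H (v e1)) * z i := by
      intro z
      unfold ev
      rw [← Finset.sum_sub_distrib, ← Finset.add_sum_erase univ _ (mem_univ (e0 a)),
        ← Finset.add_sum_erase _ _ (mem_erase.2 ⟨hne, mem_univ e1⟩), Finset.sum_eq_zero]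
      · rw [hm0, hm1]
        ring
      · intro e he
        rw [mem_erase, mem_erase] at he
        rw [h2 e he.2.1 he.1, sub_self]
    have h4 := h3 x
    have h5 := h3 y
    rw [hu.1.2, hv.1.2, sub_self] at h4
    rw [hu.2.2, hv.2.2, sub_self] at h5
    have h6 : (gv H (u e1) - gv H (v e1)) * (x i - y i) = 0 := by linarith
    have h7 : gv H (u e1) - gv H (v e1) = 0 := by
      rcases mul_eq_zero.1 h6 with h | h
      · exact h
      · exact absurd (by linarith) hi
    rw [h7, zero_mul, add_zero] at h4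
    funext e
    by_cases h8 : e = e0 a
    · rw [h8]
      exact Subtype.ext (by have := h4.symm; unfold gv at this; linarith)
    · by_cases h9 : e = e1
      · rw [h9]
        exact Subtype.ext (by have := h7; unfold gv at this; linarith)
      · exact h2 e h8 h9
  rw [card_univ, Fintype.card_fun, card_Bx, Fintype.card_coe,
    Finset.card_erase_of_mem (mem_erase.2 ⟨hne, mem_univ e1⟩),
    Finset.card_erase_of_mem (mem_univ _), card_univ] at h1
  exact h1

/-- the Bonferroni inequality -/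
lemma bonf {α ι : Type} [DecidableEq α] [DecidableEq ι] (s : Finset ι) (A : ι → Finset α)
    (Z : Finset α) (hA : ∀ i ∈ s, A i ⊆ Z) (B : ℝ)
    (hB : ∀ i ∈ s, ∀ j ∈ s, i ≠ j → ((A i ∩ A j).card : ℝ) ≤ B) (hB0 : 0 ≤ B) :
    ∑ i ∈ s, ((A i).card : ℝ) ≤ Z.card + (s.card : ℝ) ^ 2 * B := by
  have h1 : ∀ z ∈ Z, ((s.filter fun i => z ∈ A i).card : ℝ) ≤
      1 + ∑ i ∈ s, ∑ j ∈ s.erase i, if z ∈ A i ∩ A j then 1 else 0 := by
    intro z _
    obtain ⟨m, hm⟩ : ∃ m, m = (s.filter fun i => z ∈ A i).card := ⟨_, rfl⟩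
    have h2 : ∑ i ∈ s, ∑ j ∈ s.erase i, (if z ∈ A i ∩ A j then (1 : ℝ) else 0) =
        m * (m - 1) := by
      have h3 : ∀ i ∈ s, ∑ j ∈ s.erase i, (if z ∈ A i ∩ A j then (1 : ℝ) else 0) =
          if z ∈ A i then (m : ℝ) - 1 else 0 := by
        intro i hi
        split_ifs with h4
        · have h5 : ∑ j ∈ s.erase i, (if z ∈ A i ∩ A j then (1 : ℝ) else 0) =
              ∑ j ∈ s.erase i, (if z ∈ A j then (1 : ℝ) else 0) := by
            refine Finset.sum_congr rfl fun j _ => ?_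
            simp [h4]
          have h6 : ∑ j ∈ s, (if z ∈ A j then (1 : ℝ) else 0) = m := by
            rw [Finset.sum_boole, hm]
          rw [← Finset.add_sum_erase s _ hi, if_pos h4] at h6
          rw [h5]
          linarith
        · refine Finset.sum_eq_zero fun j _ => ?_
          rw [if_neg]
          intro h5
          exact h4 (mem_inter.1 h5).1
      rw [Finset.sum_congr rfl h3, ← Finset.sum_filter, Finset.sum_const, ← hm, nsmul_eq_mul]
    rw [h2, ← hm]
    have h3 : (0 : ℝ) ≤ ((m : ℝ) - 1) ^ 2 := sq_nonneg _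
    nlinarith
  have h2 : ∑ i ∈ s, ((A i).card : ℝ) = ∑ z ∈ Z, ((s.filter fun i => z ∈ A i).card : ℝ) := by
    have h3 : ∀ i ∈ s, ((A i).card : ℝ) = ∑ z ∈ Z, if z ∈ A i then (1 : ℝ) else 0 := by
      intro i hi
      rw [Finset.sum_boole, Finset.filter_mem_eq_inter, Finset.inter_eq_right.2 (hA i hi)]
    rw [Finset.sum_congr rfl h3, Finset.sum_comm]
    refine Finset.sum_congr rfl fun z _ => ?_
    rw [Finset.sum_boole]
  rw [h2]
  calc ∑ z ∈ Z, ((s.filter fun i => z ∈ A i).card : ℝ)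
      ≤ ∑ z ∈ Z, (1 + ∑ i ∈ s, ∑ j ∈ s.erase i, if z ∈ A i ∩ A j then (1 : ℝ) else 0) :=
        Finset.sum_le_sum h1
    _ = Z.card + ∑ i ∈ s, ∑ j ∈ s.erase i, ∑ z ∈ Z, if z ∈ A i ∩ A j then (1 : ℝ) else 0 := by
        rw [Finset.sum_add_distrib, Finset.sum_const, nsmul_eq_mul, mul_one, Finset.sum_comm]
        congr 1
        refine Finset.sum_congr rfl fun i _ => ?_
        rw [Finset.sum_comm]
    _ ≤ Z.card + ∑ i ∈ s, ∑ j ∈ s.erase i, B := by
        gcongr with i hi j hj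
        rw [Finset.sum_boole]
        refine le_trans ?_ (hB i hi j (Finset.mem_of_mem_erase hj)
          (Finset.ne_of_mem_erase hj).symm)
        have : (Z.filter fun z => z ∈ A i ∩ A j) ⊆ A i ∩ A j := fun z hz => (mem_filter.1 hz).2
        exact_mod_cast Finset.card_le_card this
    _ ≤ Z.card + ∑ i ∈ s, ∑ j ∈ s, B := by
        gcongr with i hi
        exact Finset.erase_subset i s
    _ = _ := by
        rw [Finset.sum_const, Finset.sum_const, nsmul_eq_mul, nsmul_eq_mul]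
        ring

/-- the sum of the inverse weights -/
lemma sum_wt {n : ℕ} (a : Fin n → ℕ) (L : ℕ) :
    ∑ x ∈ pts a L, 1 / (wt x : ℝ) = (∑ s ∈ Icc (1 : ℤ) L, 1 / (s : ℝ)) ^ ex a 1 := by
  classical
  have h1 : ∀ x : Fin n → ℤ, 1 / (wt x : ℝ) = ∏ i, (1 / ((max 1 (x i) : ℤ) : ℝ)) := by
    intro x
    unfold wt
    push_cast
    rw [Finset.prod_div_distrib, Finset.prod_const_one]
  simp only [h1]
  unfold pts
  rw [← Finset.prod_univ_sum (fun i => if a i = 1 then Icc (1 : ℤ) L else {0})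
    (fun _ s => 1 / ((max 1 s : ℤ) : ℝ))]
  have h2 : ∀ i : Fin n, ∑ s ∈ (if a i = 1 then Icc (1 : ℤ) L else {0}),
      1 / ((max 1 s : ℤ) : ℝ) = if a i = 1 then ∑ s ∈ Icc (1 : ℤ) L, 1 / (s : ℝ) else 1 := by
    intro i
    split_ifs with h
    · refine Finset.sum_congr rfl fun s hs => ?_
      rw [mem_Icc] at hs
      rw [max_eq_right hs.1]
    · simp
  rw [Finset.prod_congr rfl fun i _ => h2 i, Finset.prod_ite, Finset.prod_const_one, mul_one,
    Finset.prod_const]
  unfold ex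
  simp only [one_mul]

lemma card_pts {n : ℕ} (a : Fin n → ℕ) (L : ℕ) : (pts a L).card = L ^ ex a 1 := by
  classical
  unfold pts ex
  rw [Fintype.card_piFinset]
  have h2 : ∀ i : Fin n, (if a i = 1 then Icc (1 : ℤ) L else {0}).card =
      if a i = 1 then L else 1 := by
    intro i
    split_ifs with h
    · rw [Int.card_Icc]
      omega
    · simp
  rw [Finset.prod_congr rfl fun i _ => h2 i, Finset.prod_ite, Finset.prod_const_one, mul_one,
    Finset.prod_const]
  simp only [one_mul]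

lemma exists_root (m H : ℕ) (hm : 1 ≤ m) : ∃ L : ℕ, L ^ m ≤ H ∧ H < (L + 1) ^ m := by
  induction H with
  | zero => exact ⟨0, by rw [zero_pow (by omega)], by simp⟩
  | succ H ih =>
    obtain ⟨L, h1, h2⟩ := ih
    by_cases h : H + 1 < (L + 1) ^ m
    · exact ⟨L, by omega, h⟩
    · refine ⟨L + 1, by omega, ?_⟩
      have h3 : (L + 1) ^ m < (L + 1 + 1) ^ m := Nat.pow_lt_pow_left (by omega) (by omega)
      omega

lemma harm_ge (L : ℕ) (hL : 1 ≤ L) : 1 ≤ ∑ s ∈ Icc (1 : ℤ) L, 1 / (s : ℝ) ∧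
    Real.log ((L : ℝ) + 1) ≤ ∑ s ∈ Icc (1 : ℤ) L, 1 / (s : ℝ) := by
  have h0 : ∑ s ∈ Icc (1 : ℤ) L, 1 / (s : ℝ) = ∑ s ∈ range L, 1 / ((s : ℝ) + 1) := by
    symm
    refine Finset.sum_bij (fun (s : ℕ) _ => (s : ℤ) + 1) ?_ ?_ ?_ ?_
    · intro s hs
      rw [mem_range] at hs
      rw [mem_Icc]
      omega
    · intro s _ t _ h
      omega
    · intro t ht
      rw [mem_Icc] at ht
      exact ⟨(t - 1).toNat, by rw [mem_range]; omega, by omega⟩
    · intro s _
      push_cast
      rfl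
  have h1 := log_add_one_le_harmonic L
  have h2 : ((harmonic L : ℚ) : ℝ) = ∑ s ∈ range L, 1 / ((s : ℝ) + 1) := by
    unfold harmonic
    push_cast
    refine Finset.sum_congr rfl fun s _ => ?_
    rw [one_div]
  rw [h0, ← h2]
  refine ⟨?_, by exact_mod_cast h1⟩
  rw [h2]
  calc (1 : ℝ) = 1 / (((0 : ℕ) : ℝ) + 1) := by simp
    _ ≤ _ := Finset.single_le_sum (f := fun s : ℕ => 1 / ((s : ℝ) + 1))
      (fun s _ => by positivity) (mem_range.2 (by omega))

/-- the lower bound for one equation -/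
theorem lower_one {n : ℕ} (a : Fin n → ℕ) : ∃ C : ℝ, 0 < C ∧ ∀ H : ℕ, 1 ≤ H →
    C * (H : ℝ) ^ (Fintype.card (E a) - 1) * (1 + Real.log H) ^ (ex a 1) ≤
      (Bad a 1 (gv H)).card := by
  classical
  obtain ⟨k, hk⟩ : ∃ k, k = ex a 1 := ⟨_, rfl⟩
  obtain ⟨M, hM⟩ : ∃ M : ℕ, M = Fintype.card (E a) := ⟨_, rfl⟩
  have hM1 : 1 ≤ M := by rw [hM]; exact Fintype.card_pos_iff.2 ⟨top a⟩
  have hMR : (1 : ℝ) ≤ M := by exact_mod_cast hM1
  rw [← hk, ← hM]
  have htriv : ∀ H : ℕ, (H : ℝ) ^ (M - 1) ≤ (Bad a 1 (gv H)).card := by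
    intro H
    have := lower_trivial a 1 H
    rw [← hM, mul_one] at this
    exact this
  rcases Nat.eq_zero_or_pos k with hk0 | hk0
  · refine ⟨1, one_pos, fun H _ => ?_⟩
    rw [hk0, pow_zero, mul_one, one_mul]
    exact htriv H
  -- there is a variable of degree one
  have hM2 : 2 ≤ M := by
    rw [hk] at hk0
    unfold ex at hk0
    obtain ⟨i, hi⟩ := Finset.card_pos.1 hk0
    rw [mem_filter, one_mul] at hi
    rw [hM]
    unfold E
    rw [Fintype.card_pi, ← Finset.mul_prod_erase univ _ (mem_univ i), Fintype.card_fin, hi.2]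
    have : 0 < ∏ j ∈ univ.erase i, Fintype.card (Fin (a j + 1)) :=
      Finset.prod_pos fun j _ => by rw [Fintype.card_fin]; omega
    omega
  obtain ⟨H₀, hH₀⟩ : ∃ H₀ : ℕ, H₀ = (4 * M * 3 ^ M) ^ 2 := ⟨_, rfl⟩
  have hH₀1 : 1 ≤ H₀ := by
    have : 0 < (4 * M * 3 ^ M) ^ 2 := by positivity
    rw [hH₀]
    omega
  have hH₀R : (1 : ℝ) ≤ H₀ := by exact_mod_cast hH₀1
  have hlH₀ : 0 ≤ Real.log H₀ := Real.log_nonneg hH₀R
  obtain ⟨c1, hc1⟩ : ∃ c1 : ℝ, c1 = 1 / (4 * M * (1 + 4 * k) ^ k) := ⟨_, rfl⟩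
  obtain ⟨c2, hc2⟩ : ∃ c2 : ℝ, c2 = 1 / (1 + Real.log H₀) ^ k := ⟨_, rfl⟩
  have hc1p : 0 < c1 := by rw [hc1]; positivity
  have hc2p : 0 < c2 := by rw [hc2]; positivity
  refine ⟨min c1 c2, lt_min hc1p hc2p, fun H hH => ?_⟩
  have hHR : (1 : ℝ) ≤ H := by exact_mod_cast hH
  have hlH : 0 ≤ Real.log H := Real.log_nonneg hHR
  by_cases hsmall : H ≤ H₀
  · -- small heights
    have h1 : (1 + Real.log H) ^ k ≤ (1 + Real.log H₀) ^ k := by
      have : Real.log H ≤ Real.log H₀ := Real.log_le_log (by linarith) (by exact_mod_cast hsmall)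
      gcongr
    calc min c1 c2 * (H : ℝ) ^ (M - 1) * (1 + Real.log H) ^ k
        ≤ c2 * (H : ℝ) ^ (M - 1) * (1 + Real.log H₀) ^ k := by
          gcongr
          exact min_le_right _ _
      _ = (H : ℝ) ^ (M - 1) := by
          rw [hc2]
          field_simp
      _ ≤ _ := htriv H
  · push Not at hsmall
    obtain ⟨L, hL1, hL2⟩ := exists_root (4 * k) H (by omega)
    have hLpos : 1 ≤ L := by
      by_contra h
      have h0 : L = 0 := by omega
      rw [h0, zero_add, one_pow] at hL2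
      omega
    -- the sum
    obtain ⟨S, hS⟩ : ∃ S : ℝ, S = ∑ s ∈ Icc (1 : ℤ) L, 1 / (s : ℝ) := ⟨_, rfl⟩
    obtain ⟨hS1, hS2⟩ := harm_ge L hLpos
    rw [← hS] at hS1 hS2
    have hkR : (1 : ℝ) ≤ k := by exact_mod_cast hk0
    have h1 : (1 + Real.log H) ≤ (1 + 4 * k) * S := by
      have h2 : Real.log H ≤ 4 * k * Real.log ((L : ℝ) + 1) := by
        have h3 : Real.log H ≤ Real.log (((L : ℝ) + 1) ^ (4 * k)) :=
          Real.log_le_log (by linarith) (by exact_mod_cast hL2.le)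
        rw [Real.log_pow] at h3
        push_cast at h3
        exact h3
      have h3 : 4 * (k : ℝ) * Real.log ((L : ℝ) + 1) ≤ 4 * k * S := by gcongr
      linarith
    have h2 : (1 + Real.log H) ^ k ≤ (1 + 4 * k) ^ k * S ^ k := by
      rw [← mul_pow]
      exact pow_le_pow_left₀ (by linarith) h1 _
    -- the Bonferroni inequality
    have h3 := bonf (pts a L) (At a H) ((Bad a 1 (gv H)).image fun u => u 0) (fun x hx => by
      intro u hu
      rw [mem_image]
      unfold At at hu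
      rw [mem_filter] at hu
      refine ⟨fun _ => u, ?_, rfl⟩
      rw [mem_Bad]
      exact ⟨x, fun _ => hu.2⟩) ((2 * (H : ℝ) + 1) ^ (M - 2)) (fun x hx y hy hxy => by
      have := At_inter a H L x y hx hy hxy
      rw [← hM] at this
      exact_mod_cast this) (by positivity)
    have h4 : (((Bad a 1 (gv H)).image fun u => u 0).card : ℝ) ≤ (Bad a 1 (gv H)).card := by
      exact_mod_cast Finset.card_image_le
    have h5 : (H : ℝ) ^ (M - 1) / (2 * M) * S ^ k ≤ ∑ x ∈ pts a L, ((At a H x).card : ℝ) := by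
      rw [hS, hk, ← sum_wt, Finset.mul_sum]
      refine Finset.sum_le_sum fun x hx => ?_
      have := At_ge a H L hH x hx
      rw [← hM] at this
      exact this
    -- the error term
    have h6 : ((pts a L).card : ℝ) ^ 2 * (2 * (H : ℝ) + 1) ^ (M - 2) ≤
        (H : ℝ) ^ (M - 1) / (4 * M) * S ^ k := by
      rw [card_pts, ← hk]
      push_cast
      -- `L ^ (2 k) ≤ √ H`
      have h7 : (((L : ℝ) ^ k) ^ 2) ^ 2 ≤ H := by
        have h8 : (((L : ℝ) ^ k) ^ 2) ^ 2 = (L : ℝ) ^ (4 * k) := by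
          rw [← pow_mul, ← pow_mul]
          congr 1
          ring
        rw [h8]
        exact_mod_cast hL1
      have h8 : ((L : ℝ) ^ k) ^ 2 ≤ Real.sqrt H := Real.le_sqrt_of_sq_le h7
      have h9 : 4 * M * 3 ^ M ≤ Real.sqrt H := by
        refine Real.le_sqrt_of_sq_le ?_
        rw [hH₀] at hsmall
        exact_mod_cast hsmall.le
      have h10 : (2 * (H : ℝ) + 1) ^ (M - 2) ≤ 3 ^ M * (H : ℝ) ^ (M - 2) := by
        calc (2 * (H : ℝ) + 1) ^ (M - 2) ≤ (3 * (H : ℝ)) ^ (M - 2) := by gcongr; linarith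
          _ = 3 ^ (M - 2) * (H : ℝ) ^ (M - 2) := by rw [mul_pow]
          _ ≤ 3 ^ M * (H : ℝ) ^ (M - 2) := by
              gcongr
              · norm_num
              · omega
      have h11 : (1 : ℝ) ≤ S ^ k := one_le_pow₀ hS1
      have h12 : (H : ℝ) ^ (M - 1) = Real.sqrt H * Real.sqrt H * (H : ℝ) ^ (M - 2) := by
        rw [Real.mul_self_sqrt (by linarith), ← pow_succ']
        congr 1
        omega
      have hsq0 : 0 ≤ Real.sqrt H := Real.sqrt_nonneg _
      calc ((L : ℝ) ^ k) ^ 2 * (2 * (H : ℝ) + 1) ^ (M - 2)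
          ≤ Real.sqrt H * (3 ^ M * (H : ℝ) ^ (M - 2)) := by gcongr
        _ = Real.sqrt H * (4 * M * 3 ^ M) * (H : ℝ) ^ (M - 2) / (4 * M) := by
            field_simp
        _ ≤ Real.sqrt H * Real.sqrt H * (H : ℝ) ^ (M - 2) / (4 * M) := by gcongr
        _ = (H : ℝ) ^ (M - 1) / (4 * M) * 1 := by rw [h12, mul_one]
        _ ≤ _ := by gcongr
    calc min c1 c2 * (H : ℝ) ^ (M - 1) * (1 + Real.log H) ^ k
        ≤ c1 * (H : ℝ) ^ (M - 1) * ((1 + 4 * k) ^ k * S ^ k) := by
          gcongr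
          exact min_le_left _ _
      _ = (H : ℝ) ^ (M - 1) / (4 * M) * S ^ k := by
          rw [hc1]
          field_simp
      _ = (H : ℝ) ^ (M - 1) / (2 * M) * S ^ k - (H : ℝ) ^ (M - 1) / (4 * M) * S ^ k := by
          field_simp
          ring
      _ ≤ (Bad a 1 (gv H)).card := by linarith

/-- the lower bound -/
theorem lower {n : ℕ} (a : Fin n → ℕ) (c : ℕ) (hc : 1 ≤ c) : ∃ C : ℝ, 0 < C ∧ ∀ H : ℕ, 1 ≤ H →
    C * (H : ℝ) ^ ((Fintype.card (E a) - 1) * c) * (1 + Real.log H) ^ (ex a c) ≤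
      (Bad a c (gv H)).card := by
  rcases Nat.lt_or_ge 1 c with h | h
  · have h1 : ex a c = 0 := by
      unfold ex
      rw [Finset.card_eq_zero]
      refine Finset.filter_eq_empty_iff.2 fun i _ hi => ?_
      have := Nat.eq_one_of_mul_eq_one_right hi
      omega
    refine ⟨1, one_pos, fun H _ => ?_⟩
    rw [h1, pow_zero, mul_one, one_mul]
    exact lower_trivial a c H
  · obtain rfl : c = 1 := by omega
    simp only [mul_one]
    exact lower_one a

end Pool.Agent.N656.PL
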