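import Pool.Agent.N656.PL.Slice

/-!
# The upper bound for the systems with a common integer zero
-/

set_option autoImplicit false

open Finset

namespace Pool.Agent.N656.PL

/-- the exponents of a polynomial of degree at most `a i` in the variable number `i` -/
abbrev E {n : ℕ} (a : Fin n → ℕ) : Type := (i : Fin n) → Fin (a i + 1)

/-- the largest exponent -/
def top {n : ℕ} (a : Fin n → ℕ) : E a := fun i => Fin.last (a i)

/-- the value of the polynomial with the coefficients `g (u e)` -/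
def ev {n : ℕ} (a : Fin n → ℕ) {Ω : Type} (g : Ω → ℤ) (u : E a → Ω) (x : Fin n → ℤ) : ℤ :=
  ∑ e : E a, g (u e) * ∏ i, x i ^ (e i : ℕ)

/-- the degrees of the slices -/
def del {n : ℕ} (a : Fin (n + 1) → ℕ) (i : Fin (n + 1)) : Fin n → ℕ := fun k => a (i.succAbove k)

/-- the coefficients of the slices -/
def sli {n : ℕ} (a : Fin (n + 1) → ℕ) (i : Fin (n + 1)) {Ω : Type} (u : E a → Ω) :
    E (del a i) → Fin (a i + 1) → Ω :=
  fun e s => u (i.insertNth s e)

lemma sli_inj {n : ℕ} (a : Fin (n + 1) → ℕ) (i : Fin (n + 1)) {Ω : Type} :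
    Function.Injective (sli a i (Ω := Ω)) := by
  intro u v h
  funext e
  have h1 := congrFun (congrFun h (fun k => e (i.succAbove k))) (e i)
  unfold sli at h1
  have h2 : (i.insertNth (e i) (fun k => e (i.succAbove k)) : E a) = e :=
    Fin.insertNth_self_removeNth i e
  rw [h2] at h1
  exact h1

lemma ev_slice {n : ℕ} (a : Fin (n + 1) → ℕ) (i : Fin (n + 1)) {Ω : Type} (g : Ω → ℤ)
    (u : E a → Ω) (x : Fin (n + 1) → ℤ) :
    ev a g u x = ev (del a i) (sl (a i) (x i) g) (sli a i u) (fun k => x (i.succAbove k)) := by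
  unfold ev
  rw [← (Fin.insertNthEquiv (fun i => Fin (a i + 1)) i).sum_comp, Fintype.sum_prod_type_right]
  refine Finset.sum_congr rfl fun e _ => ?_
  unfold sl sli
  rw [Finset.sum_mul]
  refine Finset.sum_congr rfl fun s _ => ?_
  have h1 : (Fin.insertNthEquiv (fun i => Fin (a i + 1)) i) (s, e) = i.insertNth s e := rfl
  rw [h1, Fin.prod_univ_succAbove _ i]
  simp only [Fin.insertNth_apply_same, Fin.insertNth_apply_succAbove]
  ring

/-- if the corner coefficient is not zero then one coordinate of a zero is small -/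
lemma dom {n : ℕ} (a : Fin n → ℕ) (G : E a → ℤ) (B : ℝ) (hB : ∀ e, |(G e : ℝ)| ≤ B)
    (htop : G (top a) ≠ 0) (x : Fin n → ℤ) (h0 : ∑ e, G e * ∏ i, x i ^ (e i : ℕ) = 0) :
    ∃ i, 1 ≤ a i ∧ |(x i : ℝ)| ≤ Fintype.card (E a) * B := by
  classical
  by_contra hcon
  push Not at hcon
  obtain ⟨M, hM⟩ : ∃ M : ℝ, M = Fintype.card (E a) := ⟨_, rfl⟩
  rw [← hM] at hcon
  have hcard : 0 < Fintype.card (E a) := Fintype.card_pos_iff.2 ⟨top a⟩
  have hM1 : 1 ≤ M := by rw [hM]; exact_mod_cast hcard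
  have hB1 : 1 ≤ B := by
    refine le_trans ?_ (hB (top a))
    have : (1 : ℤ) ≤ |G (top a)| := Int.one_le_abs htop
    have h2 : ((1 : ℤ) : ℝ) ≤ ((|G (top a)| : ℤ) : ℝ) := by exact_mod_cast this
    push_cast at h2
    exact h2
  have hMB : 1 ≤ M * B := by nlinarith
  have hx1 : ∀ i, 1 ≤ a i → 1 < |(x i : ℝ)| := fun i hi => lt_of_le_of_lt hMB (hcon i hi)
  obtain ⟨W, hW⟩ : ∃ W : ℝ, W = ∏ i, |(x i : ℝ)| ^ (a i) := ⟨_, rfl⟩
  have hW0 : 0 < W := by
    rw [hW]
    refine Finset.prod_pos fun i _ => ?_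
    by_cases hi : 1 ≤ a i
    · have := hx1 i hi
      positivity
    · have : a i = 0 := by omega
      rw [this, pow_zero]
      exact one_pos
  -- the other monomials
  have hoth : ∀ e : E a, e ≠ top a → (∏ i, |(x i : ℝ)| ^ (e i : ℕ)) * (M * B) ≤ W := by
    intro e he
    obtain ⟨i₀, hi₀⟩ : ∃ i, e i ≠ Fin.last (a i) := by
      by_contra hc
      push Not at hc
      exact he (funext hc)
    have hlt : (e i₀ : ℕ) < a i₀ := by
      have h1 := (e i₀).isLt
      have h2 : (e i₀ : ℕ) ≠ a i₀ := fun h => hi₀ (Fin.ext (by rw [h]; rfl))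
      omega
    have ha1 : 1 ≤ a i₀ := by omega
    rw [hW, ← Finset.mul_prod_erase univ (fun i => |(x i : ℝ)| ^ (e i : ℕ)) (mem_univ i₀),
      ← Finset.mul_prod_erase univ (fun i => |(x i : ℝ)| ^ (a i)) (mem_univ i₀)]
    have h1 : ∏ i ∈ univ.erase i₀, |(x i : ℝ)| ^ (e i : ℕ) ≤
        ∏ i ∈ univ.erase i₀, |(x i : ℝ)| ^ (a i) := by
      refine Finset.prod_le_prod (fun i _ => by positivity) fun i _ => ?_
      have hle : (e i : ℕ) ≤ a i := by have := (e i).isLt; omega
      by_cases hi : 1 ≤ a i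
      · exact pow_le_pow_right₀ (hx1 i hi).le hle
      · have h3 : a i = 0 := by omega
        have h4 : (e i : ℕ) = 0 := by omega
        have h5 : |(x i : ℝ)| ^ (e i : ℕ) = 1 := by rw [h4, pow_zero]
        have h6 : |(x i : ℝ)| ^ (a i) = 1 := by rw [h3, pow_zero]
        rw [h5, h6]
    have h2 : |(x i₀ : ℝ)| ^ (e i₀ : ℕ) * (M * B) ≤ |(x i₀ : ℝ)| ^ (a i₀) := by
      calc |(x i₀ : ℝ)| ^ (e i₀ : ℕ) * (M * B) ≤ |(x i₀ : ℝ)| ^ (e i₀ : ℕ) * |(x i₀ : ℝ)| := by
            gcongr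
            exact (hcon i₀ ha1).le
        _ = |(x i₀ : ℝ)| ^ ((e i₀ : ℕ) + 1) := by rw [pow_succ]
        _ ≤ _ := pow_le_pow_right₀ (hx1 i₀ ha1).le hlt
    calc (|(x i₀ : ℝ)| ^ (e i₀ : ℕ) * ∏ i ∈ univ.erase i₀, |(x i : ℝ)| ^ (e i : ℕ)) * (M * B)
        = (|(x i₀ : ℝ)| ^ (e i₀ : ℕ) * (M * B)) *
          ∏ i ∈ univ.erase i₀, |(x i : ℝ)| ^ (e i : ℕ) := by ring
      _ ≤ |(x i₀ : ℝ)| ^ (a i₀) * ∏ i ∈ univ.erase i₀, |(x i : ℝ)| ^ (a i) := by
          gcongr
  have hR : ∑ e : E a, (G e : ℝ) * ∏ i, (x i : ℝ) ^ (e i : ℕ) = 0 := by exact_mod_cast h0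
  rw [← Finset.add_sum_erase univ _ (mem_univ (top a))] at hR
  have h3 : |(G (top a) : ℝ) * ∏ i, (x i : ℝ) ^ (top a i : ℕ)| ≤
      ∑ e ∈ univ.erase (top a), B * (W / (M * B)) := by
    have h4 : (G (top a) : ℝ) * ∏ i, (x i : ℝ) ^ (top a i : ℕ) =
        -∑ e ∈ univ.erase (top a), (G e : ℝ) * ∏ i, (x i : ℝ) ^ (e i : ℕ) := by linarith
    rw [h4, abs_neg]
    refine (Finset.abs_sum_le_sum_abs _ _).trans (Finset.sum_le_sum fun e he => ?_)
    rw [abs_mul, Finset.abs_prod]
    simp only [abs_pow]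
    have h5 := hoth e (Finset.ne_of_mem_erase he)
    have h6 : ∏ i, |(x i : ℝ)| ^ (e i : ℕ) ≤ W / (M * B) := by
      rw [le_div_iff₀ (by positivity)]
      exact h5
    have := hB e
    gcongr
  have h7 : W ≤ |(G (top a) : ℝ) * ∏ i, (x i : ℝ) ^ (top a i : ℕ)| := by
    rw [abs_mul, Finset.abs_prod]
    simp only [abs_pow]
    have h8 : (1 : ℝ) ≤ |(G (top a) : ℝ)| := by
      have : (1 : ℤ) ≤ |G (top a)| := Int.one_le_abs htop
      have h2 : ((1 : ℤ) : ℝ) ≤ ((|G (top a)| : ℤ) : ℝ) := by exact_mod_cast this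
      push_cast at h2
      exact h2
    have h9 : ∏ i, |(x i : ℝ)| ^ (top a i : ℕ) = W := by
      rw [hW]
      rfl
    rw [h9]
    nlinarith
  rw [Finset.sum_const, Finset.card_erase_of_mem (mem_univ _), card_univ, nsmul_eq_mul,
    Nat.cast_sub hcard, ← hM] at h3
  have h10 : (M - ((1 : ℕ) : ℝ)) * (B * (W / (M * B))) = (M - 1) / M * W := by
    push_cast
    field_simp
  rw [h10] at h3
  have h11 : (M - 1) / M < 1 := by rw [div_lt_one (by linarith)]; linarith
  nlinarith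

/-- the systems whose corner coefficients vanish -/
lemma card_corner {n : ℕ} (a : Fin n → ℕ) (c : ℕ) {Ω : Type} [Fintype Ω] {g : Ω → ℤ} {κ R : ℝ}
    (hR : 0 ≤ R) (h : Spread g κ R) (e₀ : E a) :
    ((univ.filter fun u : Fin c → E a → Ω => ∀ j, g (u j e₀) = 0).card : ℝ) * R ^ c ≤
      κ ^ c * (Fintype.card Ω : ℝ) ^ (Fintype.card (E a) * c) := by
  classical
  have h1 : (univ.filter fun u : Fin c → E a → Ω => ∀ j, g (u j e₀) = 0) =
      Fintype.piFinset fun _ : Fin c => univ.filter fun w : E a → Ω => g (w e₀) = 0 := by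
    ext u
    simp [Fintype.mem_piFinset]
  have h2 : (univ.filter fun w : E a → Ω => g (w e₀) = 0) =
      Fintype.piFinset fun e : E a => if e = e₀ then univ.filter fun ω => g ω = 0 else univ := by
    ext w
    rw [mem_filter, Fintype.mem_piFinset]
    constructor
    · intro hw e
      split_ifs with he
      · subst he
        exact mem_filter.2 ⟨mem_univ _, hw.2⟩
      · exact mem_univ _
    · intro hw
      have := hw e₀
      rw [if_pos rfl, mem_filter] at this
      exact ⟨mem_univ _, this.2⟩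
  have hc : 0 < Fintype.card (E a) := Fintype.card_pos_iff.2 ⟨e₀⟩
  have h3 : ((univ.filter fun w : E a → Ω => g (w e₀) = 0).card : ℝ) * R ≤
      κ * (Fintype.card Ω : ℝ) ^ (Fintype.card (E a)) := by
    rw [h2, Fintype.card_piFinset, ← Finset.mul_prod_erase univ _ (mem_univ e₀), if_pos rfl]
    have h4 : ∏ e ∈ univ.erase e₀, (if e = e₀ then univ.filter fun ω => g ω = 0 else
        (univ : Finset Ω)).card = Fintype.card Ω ^ (Fintype.card (E a) - 1) := by
      rw [Finset.prod_congr rfl (g := fun _ => Fintype.card Ω)]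
      · rw [Finset.prod_const, Finset.card_erase_of_mem (mem_univ _), card_univ]
      · intro e he
        rw [if_neg (Finset.ne_of_mem_erase he), card_univ]
    rw [h4]
    push_cast
    have h5 := h.fib 0
    calc ((univ.filter fun ω => g ω = 0).card : ℝ) *
          (Fintype.card Ω : ℝ) ^ (Fintype.card (E a) - 1) * R
        = ((univ.filter fun ω => g ω = 0).card : ℝ) * R *
          (Fintype.card Ω : ℝ) ^ (Fintype.card (E a) - 1) := by ring
      _ ≤ κ * Fintype.card Ω * (Fintype.card Ω : ℝ) ^ (Fintype.card (E a) - 1) := by gcongr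
      _ = κ * (Fintype.card Ω : ℝ) ^ (Fintype.card (E a) - 1 + 1) := by rw [pow_succ]; ring
      _ = _ := by rw [Nat.sub_add_cancel hc]
  rw [h1, Fintype.card_piFinset, Finset.prod_const, card_univ, Fintype.card_fin]
  push_cast
  rw [← mul_pow, pow_mul, ← mul_pow]
  gcongr

end Pool.Agent.N656.PL
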