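import Pool.Agent.N656.PL.Upper

/-!
# The upper bound for the systems with a common integer zero: the induction
-/

set_option autoImplicit false

open Finset

namespace Pool.Agent.N656.PL

lemma sum_sq (T : ℕ) : ∑ s ∈ range T, 1 / ((s : ℝ) + 1) ^ 2 ≤ 2 - 2 / ((T : ℝ) + 1) := by
  induction T with
  | zero => simp
  | succ T ih =>
    rw [Finset.sum_range_succ]
    have h1 : 1 / ((T : ℝ) + 1) ^ 2 ≤ 2 / ((T : ℝ) + 1) - 2 / ((T : ℝ) + 1 + 1) := by
      rw [div_sub_div _ _ (by positivity) (by positivity), div_le_div_iff₀ (by positivity)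
        (by positivity)]
      have : (0 : ℝ) ≤ T := by positivity
      nlinarith
    push_cast
    linarith

/-- the sum over the values of one coordinate -/
lemma sum_tau (m : ℕ) (hm : 1 ≤ m) (T : ℕ) :
    ∑ t ∈ Icc (-(T : ℤ)) T, 1 / (max 1 |(t : ℝ)|) ^ m ≤
      6 + if m = 1 then 2 * Real.log T else 0 := by
  classical
  have h0 : ∀ t : ℤ, 0 ≤ 1 / (max 1 |(t : ℝ)|) ^ m := fun t => by positivity
  have h1 : Icc (-(T : ℤ)) T ⊆ (range (T + 1)).image (fun s : ℕ => (s : ℤ)) ∪
      (range (T + 1)).image (fun s : ℕ => -(s : ℤ)) := by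
    intro t ht
    rw [mem_Icc] at ht
    rw [mem_union, mem_image, mem_image]
    rcases le_total 0 t with h | h
    · left
      exact ⟨t.toNat, by rw [mem_range]; omega, by omega⟩
    · right
      exact ⟨(-t).toNat, by rw [mem_range]; omega, by omega⟩
  have h2 : ∑ t ∈ Icc (-(T : ℤ)) T, 1 / (max 1 |(t : ℝ)|) ^ m ≤
      2 * ∑ s ∈ range (T + 1), 1 / (max 1 |(s : ℝ)|) ^ m := by
    calc ∑ t ∈ Icc (-(T : ℤ)) T, 1 / (max 1 |(t : ℝ)|) ^ m
        ≤ ∑ t ∈ (range (T + 1)).image (fun s : ℕ => (s : ℤ)) ∪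
          (range (T + 1)).image (fun s : ℕ => -(s : ℤ)), 1 / (max 1 |(t : ℝ)|) ^ m :=
          Finset.sum_le_sum_of_subset_of_nonneg h1 fun t _ _ => h0 t
      _ ≤ ∑ t ∈ (range (T + 1)).image (fun s : ℕ => (s : ℤ)), 1 / (max 1 |(t : ℝ)|) ^ m +
          ∑ t ∈ (range (T + 1)).image (fun s : ℕ => -(s : ℤ)), 1 / (max 1 |(t : ℝ)|) ^ m := by
          rw [← Finset.sum_union_inter]
          have := Finset.sum_nonneg fun t (_ : t ∈ (range (T + 1)).image (fun s : ℕ => (s : ℤ)) ∩
            (range (T + 1)).image (fun s : ℕ => -(s : ℤ))) => h0 t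
          linarith
      _ = ∑ s ∈ range (T + 1), 1 / (max 1 |(s : ℝ)|) ^ m +
          ∑ s ∈ range (T + 1), 1 / (max 1 |(s : ℝ)|) ^ m := by
          rw [Finset.sum_image (fun x _ y _ h => by exact_mod_cast h),
            Finset.sum_image (fun x _ y _ h => by simpa using h)]
          push_cast
          simp only [abs_neg]
      _ = _ := by ring
  have h3 : ∑ s ∈ range (T + 1), 1 / (max 1 |(s : ℝ)|) ^ m =
      ∑ s ∈ range T, 1 / ((s : ℝ) + 1) ^ m + 1 := by
    rw [Finset.sum_range_succ']
    congr 1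
    · refine Finset.sum_congr rfl fun s _ => ?_
      have h4 : max 1 |((s + 1 : ℕ) : ℝ)| = (s : ℝ) + 1 := by
        push_cast
        rw [abs_of_nonneg (by positivity)]
        refine max_eq_right ?_
        have : (0 : ℝ) ≤ s := by positivity
        linarith
      rw [h4]
    · simp
  rw [h3] at h2
  refine h2.trans ?_
  split_ifs with h4
  · subst h4
    have h5 := harmonic_le_one_add_log T
    have h6 : ((harmonic T : ℚ) : ℝ) = ∑ s ∈ range T, 1 / ((s : ℝ) + 1) ^ 1 := by
      unfold harmonic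
      push_cast
      refine Finset.sum_congr rfl fun s _ => ?_
      rw [pow_one, one_div]
    rw [h6] at h5
    linarith
  · have h5 := sum_sq T
    have h6 : ∑ s ∈ range T, 1 / ((s : ℝ) + 1) ^ m ≤ ∑ s ∈ range T, 1 / ((s : ℝ) + 1) ^ 2 := by
      refine Finset.sum_le_sum fun s _ => ?_
      have h7 : ((s : ℝ) + 1) ^ 2 ≤ ((s : ℝ) + 1) ^ m :=
        pow_le_pow_right₀ (by have : (0 : ℝ) ≤ s := by positivity
                              linarith) (by omega)
      exact one_div_le_one_div_of_le (by positivity) h7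
    have h8 : 0 ≤ 2 / ((T : ℝ) + 1) := by positivity
    linarith

/-- the number of the variables in which the `c` equations have total degree one -/
def ex {n : ℕ} (a : Fin n → ℕ) (c : ℕ) : ℕ := (univ.filter fun i => c * a i = 1).card

lemma ex_del {n : ℕ} (a : Fin (n + 1) → ℕ) (c : ℕ) (i : Fin (n + 1)) :
    ex a c = ex (del a i) c + if c * a i = 1 then 1 else 0 := by
  unfold ex
  rw [Finset.card_filter, Finset.card_filter, Fin.sum_univ_succAbove _ i, add_comm]
  rfl

lemma card_E_del {n : ℕ} (a : Fin (n + 1) → ℕ) (i : Fin (n + 1)) :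
    Fintype.card (E a) = (a i + 1) * Fintype.card (E (del a i)) := by
  unfold E
  rw [Fintype.card_pi, Fintype.card_pi, Fin.prod_univ_succAbove _ i, Fintype.card_fin]
  rfl

/-- the systems with a common integer zero -/
noncomputable def Bad {n : ℕ} (a : Fin n → ℕ) (c : ℕ) {Ω : Type} [Fintype Ω] (g : Ω → ℤ) :
    Finset (Fin c → E a → Ω) := by
  classical
  exact univ.filter fun u => ∃ x : Fin n → ℤ, ∀ j, ev a g (u j) x = 0

lemma mem_Bad {n : ℕ} (a : Fin n → ℕ) (c : ℕ) {Ω : Type} [Fintype Ω] (g : Ω → ℤ)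
    (u : Fin c → E a → Ω) : u ∈ Bad a c g ↔ ∃ x : Fin n → ℤ, ∀ j, ev a g (u j) x = 0 := by
  classical
  unfold Bad
  simp

/-- the upper bound -/
theorem upper (n : ℕ) : ∀ (a : Fin n → ℕ) (c : ℕ), 1 ≤ c → ∀ κ : ℝ, 1 ≤ κ → ∃ C : ℝ, 0 ≤ C ∧
    ∀ (Ω : Type) [Fintype Ω] (g : Ω → ℤ) (R : ℝ), 1 ≤ R → Spread g κ R →
      ((Bad a c g).card : ℝ) * R ^ c ≤
        C * (Fintype.card Ω : ℝ) ^ (Fintype.card (E a) * c) * (1 + Real.log R) ^ (ex a c) := by
  classical
  induction n with
  | zero =>
    intro a c hc κ hκ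
    refine ⟨κ ^ c, by positivity, fun Ω _ g R hR h => ?_⟩
    have h1 : Bad a c g ⊆ univ.filter fun u : Fin c → E a → Ω => ∀ j, g (u j (top a)) = 0 := by
      intro u hu
      rw [mem_Bad] at hu
      obtain ⟨x, hx⟩ := hu
      rw [mem_filter]
      refine ⟨mem_univ _, fun j => ?_⟩
      by_contra hne
      obtain ⟨i, _⟩ := dom a (fun e => g (u j e)) (κ * R) (fun e => h.bd _) hne x (hx j)
      exact i.elim0
    have h2 := card_corner a c (by linarith) h (top a)
    have h3 : ((Bad a c g).card : ℝ) ≤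
        ((univ.filter fun u : Fin c → E a → Ω => ∀ j, g (u j (top a)) = 0).card : ℝ) := by
      exact_mod_cast Finset.card_le_card h1
    have h4 : ex a c = 0 := by
      unfold ex
      rw [Finset.card_eq_zero]
      refine Finset.filter_eq_empty_iff.2 fun i => i.elim0
    rw [h4, pow_zero, mul_one]
    refine le_trans ?_ h2
    gcongr
  | succ n ih =>
    intro a c hc κ hκ
    obtain ⟨lam, hlam⟩ : ∃ lam : ℝ, lam = Fintype.card (E a) * κ := ⟨_, rfl⟩
    have hcard : 0 < Fintype.card (E a) := Fintype.card_pos_iff.2 ⟨top a⟩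
    have hM1 : (1 : ℝ) ≤ Fintype.card (E a) := by exact_mod_cast hcard
    have hl : 1 ≤ lam := by rw [hlam]; nlinarith
    have hll : 0 ≤ Real.log lam := Real.log_nonneg hl
    have hKap : ∀ i, 1 ≤ Kap κ lam (a i) := fun i => by
      have := Kap_ge hκ hl (a i)
      have h0 : (0 : ℝ) ≤ a i := by positivity
      nlinarith
    choose! C hC0 hC using fun i => ih (del a i) c hc (Kap κ lam (a i)) (hKap i)
    obtain ⟨A, hA⟩ : ∃ A : Fin (n + 1) → ℝ, ∀ i, A i = 1 + a i + a i * Real.log lam :=
      ⟨_, fun _ => rfl⟩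
    have hA1 : ∀ i, 0 ≤ A i := fun i => by rw [hA]; positivity
    refine ⟨κ ^ c + ∑ i, C i * A i ^ ex (del a i) c * (6 + 2 * Real.log lam), ?_,
      fun Ω _ g R hR h => ?_⟩
    · refine add_nonneg (by positivity) (Finset.sum_nonneg fun i _ => ?_)
      have := hC0 i
      have := hA1 i
      positivity
    obtain ⟨T, hT⟩ : ∃ T : ℕ, T = ⌊lam * R⌋₊ := ⟨_, rfl⟩
    have hlR : 1 ≤ lam * R := by nlinarith
    have hTle : (T : ℝ) ≤ lam * R := by rw [hT]; exact Nat.floor_le (by linarith)
    have hT1 : 1 ≤ T := by rw [hT]; exact Nat.le_floor (by exact_mod_cast hlR)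
    have hLR : 0 ≤ Real.log R := Real.log_nonneg hR
    have hlogT : Real.log T ≤ Real.log lam + Real.log R := by
      rw [← Real.log_mul (by linarith) (by linarith)]
      exact Real.log_le_log (by exact_mod_cast hT1) hTle
    have h1 : Bad a c g ⊆ (univ.filter fun u : Fin c → E a → Ω => ∀ j, g (u j (top a)) = 0) ∪
        (univ.filter fun i => 1 ≤ a i).biUnion fun i => (Icc (-(T : ℤ)) T).biUnion fun t =>
          univ.filter fun u : Fin c → E a → Ω =>
            (fun j => sli a i (u j)) ∈ Bad (del a i) c (sl (a i) t g) := by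
      intro u hu
      rw [mem_Bad] at hu
      obtain ⟨x, hx⟩ := hu
      rw [mem_union]
      by_cases hall : ∀ j, g (u j (top a)) = 0
      · left
        exact mem_filter.2 ⟨mem_univ _, hall⟩
      · right
        push Not at hall
        obtain ⟨j, hj⟩ := hall
        obtain ⟨i, hi1, hi2⟩ := dom a (fun e => g (u j e)) (κ * R) (fun e => h.bd _) hj x (hx j)
        rw [mem_biUnion]
        refine ⟨i, mem_filter.2 ⟨mem_univ _, hi1⟩, ?_⟩
        rw [mem_biUnion]
        have h2 : |(x i : ℝ)| ≤ lam * R := by rw [hlam]; linarith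
        have h3 : ((x i).natAbs : ℝ) ≤ lam * R := by
          rw [Nat.cast_natAbs]
          push_cast
          exact h2
        have h4 : (x i).natAbs ≤ T := by rw [hT]; exact Nat.le_floor h3
        refine ⟨x i, mem_Icc.2 ⟨by omega, by omega⟩, mem_filter.2 ⟨mem_univ _, ?_⟩⟩
        rw [mem_Bad]
        refine ⟨fun k => x (i.succAbove k), fun j' => ?_⟩
        rw [← ev_slice]
        exact hx j'
    obtain ⟨Q, hQ⟩ : ∃ Q : ℝ, Q = (Fintype.card Ω : ℝ) ^ (Fintype.card (E a) * c) := ⟨_, rfl⟩
    have hQ0 : 0 ≤ Q := by rw [hQ]; positivity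
    obtain ⟨Lg, hLg⟩ : ∃ Lg : ℝ, Lg = 1 + Real.log R := ⟨_, rfl⟩
    have hLg1 : 1 ≤ Lg := by rw [hLg]; linarith
    -- the slices
    have h2 : ∀ i, 1 ≤ a i → ∀ t ∈ Icc (-(T : ℤ)) T,
        ((univ.filter fun u : Fin c → E a → Ω =>
          (fun j => sli a i (u j)) ∈ Bad (del a i) c (sl (a i) t g)).card : ℝ) * R ^ c ≤
          C i * A i ^ ex (del a i) c * Lg ^ ex (del a i) c * Q *
            (1 / (max 1 |(t : ℝ)|) ^ (c * a i)) := by
      intro i hi t ht
      rw [mem_Icc] at ht
      have htR : |(t : ℝ)| ≤ lam * R := by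
        refine le_trans ?_ hTle
        rw [abs_le]
        constructor
        · exact_mod_cast ht.1
        · exact_mod_cast ht.2
      obtain ⟨τ, hτ⟩ : ∃ τ : ℝ, τ = max 1 |(t : ℝ)| := ⟨_, rfl⟩
      have hτ1 : 1 ≤ τ := by rw [hτ]; exact le_max_left _ _
      have hτR : τ ≤ lam * R := by rw [hτ]; exact max_le hlR htR
      have h3 : (univ.filter fun u : Fin c → E a → Ω =>
          (fun j => sli a i (u j)) ∈ Bad (del a i) c (sl (a i) t g)).card ≤
          (Bad (del a i) c (sl (a i) t g)).card := by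
        refine Finset.card_le_card_of_injOn (fun u j => sli a i (u j)) ?_ ?_
        · intro u hu
          rw [coe_filter] at hu
          exact hu.2
        · intro u _ v _ huv
          funext j
          exact sli_inj a i (congrFun huv j)
      have h4 := spread_sl hR hκ hl h t htR (a i)
      rw [← hτ] at h4
      have hR' : 1 ≤ R * τ ^ (a i) := by
        have := one_le_pow₀ hτ1 (n := a i)
        nlinarith
      have h5 := hC i (Fin (a i + 1) → Ω) (sl (a i) t g) (R * τ ^ (a i)) hR' h4
      rw [Fintype.card_fun, Fintype.card_fin] at h5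
      push_cast at h5
      have h6 : ((Fintype.card Ω : ℝ) ^ (a i + 1)) ^ (Fintype.card (E (del a i)) * c) = Q := by
        rw [hQ, ← pow_mul, card_E_del a i, mul_assoc]
      rw [h6, mul_pow, ← pow_mul] at h5
      have h7 : 1 + Real.log (R * τ ^ (a i)) ≤ A i * Lg := by
        rw [Real.log_mul (by linarith) (by positivity), Real.log_pow, hA, hLg]
        have h8 : Real.log τ ≤ Real.log lam + Real.log R := by
          rw [← Real.log_mul (by linarith) (by linarith)]
          exact Real.log_le_log (by linarith) hτR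
        have h9 : (a i : ℝ) * Real.log τ ≤ a i * (Real.log lam + Real.log R) := by gcongr
        have h10 : 0 ≤ (a i : ℝ) * (Real.log lam * Real.log R) := by positivity
        have h11 : 0 ≤ (a i : ℝ) := by positivity
        nlinarith
      have h7' : 0 ≤ 1 + Real.log (R * τ ^ (a i)) := by
        have := Real.log_nonneg hR'
        linarith
      have h8 : (1 + Real.log (R * τ ^ (a i))) ^ ex (del a i) c ≤
          A i ^ ex (del a i) c * Lg ^ ex (del a i) c := by
        rw [← mul_pow]
        exact pow_le_pow_left₀ h7' h7 _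
      rw [← hτ, mul_one_div, le_div_iff₀ (by positivity)]
      have hC0i := hC0 i
      calc _ ≤ ((Bad (del a i) c (sl (a i) t g)).card : ℝ) * R ^ c * τ ^ (c * a i) := by
            gcongr
        _ = ((Bad (del a i) c (sl (a i) t g)).card : ℝ) * (R ^ c * τ ^ (a i * c)) := by
            rw [mul_comm c (a i)]
            ring
        _ ≤ C i * Q * (1 + Real.log (R * τ ^ (a i))) ^ ex (del a i) c := h5
        _ ≤ C i * Q * (A i ^ ex (del a i) c * Lg ^ ex (del a i) c) := by gcongr
        _ = _ := by ring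
    have h3 : ∀ i, 1 ≤ a i → (∑ t ∈ Icc (-(T : ℤ)) T, ((univ.filter fun u : Fin c → E a → Ω =>
          (fun j => sli a i (u j)) ∈ Bad (del a i) c (sl (a i) t g)).card : ℝ)) * R ^ c ≤
          C i * A i ^ ex (del a i) c * (6 + 2 * Real.log lam) * (Q * Lg ^ ex a c) := by
      intro i hi
      have hC0i := hC0 i
      have hAi := hA1 i
      have hm1 : 1 ≤ c * a i := Nat.mul_pos hc hi
      have h4 := sum_tau (c * a i) hm1 T
      have h5 : (6 + if c * a i = 1 then 2 * Real.log T else 0) ≤
          (6 + 2 * Real.log lam) * Lg ^ (if c * a i = 1 then 1 else 0) := by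
        split_ifs with h6
        · rw [pow_one, hLg]
          have h7 : 0 ≤ Real.log lam * Real.log R := by positivity
          nlinarith
        · rw [pow_zero, mul_one]
          linarith
      calc (∑ t ∈ Icc (-(T : ℤ)) T, ((univ.filter fun u : Fin c → E a → Ω =>
          (fun j => sli a i (u j)) ∈ Bad (del a i) c (sl (a i) t g)).card : ℝ)) * R ^ c
          = ∑ t ∈ Icc (-(T : ℤ)) T, ((univ.filter fun u : Fin c → E a → Ω =>
          (fun j => sli a i (u j)) ∈ Bad (del a i) c (sl (a i) t g)).card : ℝ) * R ^ c := by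
            rw [Finset.sum_mul]
        _ ≤ ∑ t ∈ Icc (-(T : ℤ)) T, C i * A i ^ ex (del a i) c * Lg ^ ex (del a i) c * Q *
            (1 / (max 1 |(t : ℝ)|) ^ (c * a i)) := Finset.sum_le_sum fun t ht => h2 i hi t ht
        _ = C i * A i ^ ex (del a i) c * Lg ^ ex (del a i) c * Q *
            ∑ t ∈ Icc (-(T : ℤ)) T, 1 / (max 1 |(t : ℝ)|) ^ (c * a i) := by
            rw [Finset.mul_sum]
        _ ≤ C i * A i ^ ex (del a i) c * Lg ^ ex (del a i) c * Q *
            ((6 + 2 * Real.log lam) * Lg ^ (if c * a i = 1 then 1 else 0)) := by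
            have := h4.trans h5
            have hL0 : 0 ≤ Lg := by linarith
            gcongr
        _ = C i * A i ^ ex (del a i) c * (6 + 2 * Real.log lam) *
            (Q * (Lg ^ ex (del a i) c * Lg ^ (if c * a i = 1 then 1 else 0))) := by ring
        _ = _ := by rw [← pow_add, ← ex_del]
    have h4 : ((Bad a c g).card : ℝ) ≤
        ((univ.filter fun u : Fin c → E a → Ω => ∀ j, g (u j (top a)) = 0).card : ℝ) +
        ∑ i ∈ univ.filter fun i => 1 ≤ a i, ∑ t ∈ Icc (-(T : ℤ)) T,
          ((univ.filter fun u : Fin c → E a → Ω =>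
          (fun j => sli a i (u j)) ∈ Bad (del a i) c (sl (a i) t g)).card : ℝ) := by
      have h5 := (Finset.card_le_card h1).trans (Finset.card_union_le _ _)
      have h6 := h5.trans (Nat.add_le_add_left (Finset.card_biUnion_le) _)
      have h7 := h6.trans (Nat.add_le_add_left (Finset.sum_le_sum fun i _ =>
        Finset.card_biUnion_le) _)
      exact_mod_cast h7
    rw [← hQ, ← hLg]
    have hR0 : 0 ≤ R := by linarith
    have h5 := card_corner a c hR0 h (top a)
    rw [← hQ] at h5
    have hL0 : 0 ≤ Lg := by linarith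
    calc ((Bad a c g).card : ℝ) * R ^ c ≤
        (((univ.filter fun u : Fin c → E a → Ω => ∀ j, g (u j (top a)) = 0).card : ℝ) +
        ∑ i ∈ univ.filter fun i => 1 ≤ a i, ∑ t ∈ Icc (-(T : ℤ)) T,
          ((univ.filter fun u : Fin c → E a → Ω =>
          (fun j => sli a i (u j)) ∈ Bad (del a i) c (sl (a i) t g)).card : ℝ)) * R ^ c := by
          gcongr
      _ = ((univ.filter fun u : Fin c → E a → Ω => ∀ j, g (u j (top a)) = 0).card : ℝ) * R ^ c +
        ∑ i ∈ univ.filter fun i => 1 ≤ a i, (∑ t ∈ Icc (-(T : ℤ)) T,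
          ((univ.filter fun u : Fin c → E a → Ω =>
          (fun j => sli a i (u j)) ∈ Bad (del a i) c (sl (a i) t g)).card : ℝ)) * R ^ c := by
          rw [add_mul, Finset.sum_mul]
      _ ≤ κ ^ c * Q + ∑ i ∈ univ.filter fun i => 1 ≤ a i,
          C i * A i ^ ex (del a i) c * (6 + 2 * Real.log lam) * (Q * Lg ^ ex a c) := by
          refine add_le_add h5 (Finset.sum_le_sum fun i hi => h3 i (mem_filter.1 hi).2)
      _ ≤ κ ^ c * (Q * Lg ^ ex a c) + ∑ i,
          C i * A i ^ ex (del a i) c * (6 + 2 * Real.log lam) * (Q * Lg ^ ex a c) := by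
          refine add_le_add ?_ ?_
          · have := one_le_pow₀ hLg1 (n := ex a c)
            have h6 : Q ≤ Q * Lg ^ ex a c := by nlinarith
            gcongr
          · refine Finset.sum_le_sum_of_subset_of_nonneg (Finset.filter_subset _ _) fun i _ _ => ?_
            have hC0i := hC0 i
            have hAi := hA1 i
            positivity
      _ = _ := by
          rw [← Finset.sum_mul]
          ring

end Pool.Agent.N656.PL
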